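import Pool.Agent.N762.UA.Fld
import Pool.Agent.R882.CSpec
import Pool.Agent.Results.MP_f72953_ag.ImagesOfHypersurfaces

/-!
MP_93ec49_ag, Q1: fundamental groups of the smooth projective varieties which are images, under
dominant rational maps of bounded degree, of smooth hypersurfaces.

Let `V` be a smooth hypersurface of degree `d` in `P^(n+1)`, of any dimension `n ≥ 1`, and `V ⇢ X` any
dominant rational map of degree `r` to a smooth connected projective variety `X`; nothing else is
assumed about the map (its ramification is arbitrary) or about `X`. Let `d ≥ 7 N + n + 6`,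
`d > (n + 1) N`, `d > 3 (N + n - 1)` and `2 r < (N + 1) (d - n - N)`; with the best `N` the bound for
`r` is `(3 / 49 - o(1)) d ^ 2` if `n ≤ 6`, and `(n / (2 (n + 1) ^ 2) - o(1)) d ^ 2` if `n ≥ 6`.

If `X` is special in the sense of Campana, or only not of general type, then `X` is unirational and
its topological fundamental group has a commutative subgroup of finite index. Nothing is assumed about
linear representations of the fundamental group.

That `X` is of general type or unirational is MP_f72953_ag.ImagesOfHypersurfaces (helper162 and the
helpers named there; the algebra of relations between the residues of the fibres along curves of degree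
at most `N`).

The proof of the second part (`Pool.Agent.N762.UA`). Let `X` be a smooth projective variety whose
function field embeds in a field of rational functions. A point of `X` is joined to each point of a
set which is not contained in countably many proper closed subvarieties by a rational curve in `X`:
the homogeneous coordinates of a parametrisation of `X` by an affine space, restricted to a line,
divided by their greatest common divisor. By the theorem on chains of closures of images of tori
(starting library, `Pool.Agent.Y193.CS`) the fundamental group of `X` is virtually abelian.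

helper762, helper162, helper194.
-/

set_option autoImplicit false

open Pool.Agent.Y193.FG (CP IsSmooth)
open Pool.Agent.Y193.CS (VirtuallyAbelian)
open Pool.Agent.W602.GT (coords Special GeneralType)
open FF MvPolynomial
open Pool.Agent.W619.TW (IsUnirational)

namespace Pool.Agent.Results.MP_93ec49_ag.ImagesOfHypersurfaces

/-- `X` is a smooth connected projective variety in `P^N`: it is the set of the common zeros of
forms, a complex submanifold of `P^N`, and connected. -/
structure IsSmoothProjective {N : ℕ} (X : Set (CP N)) : Prop where
  algebraic : ∃ (ι : Type) (p : ι → MvPolynomial (Fin (N + 1)) ℂ),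
    (∀ i, ∃ d, (p i).IsHomogeneous d) ∧
      X = {P | ∀ (v : Fin (N + 1) → ℂ) (hv : v ≠ 0), CP.mk v hv = P →
        ∀ i, MvPolynomial.eval v (p i) = 0}
  smooth : IsSmooth X
  connected : IsConnected X

/-- `L` is the function field of the projective variety `X` in `P^N`, and `x` its generic point, in
homogeneous coordinates: the ratios of the `x i` generate `L`, and a form vanishes on `X` if and only
if it vanishes at `x`. -/
structure IsFunctionField {N : ℕ} (X : Set (CP N)) (L : Type) [Field L] [Algebra ℂ L]
    (x : Fin (N + 1) → L) : Prop where
  ne_zero : x ≠ 0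
  generate : coords ℂ x = ⊤
  forms : ∀ G : MvPolynomial (Fin (N + 1)) ℂ, (∃ d, G.IsHomogeneous d) →
    (MvPolynomial.aeval x G = 0 ↔
      ∀ (v : Fin (N + 1) → ℂ) (hv : v ≠ 0), CP.mk v hv ∈ X → MvPolynomial.eval v G = 0)

/-- **Images of smooth hypersurfaces.** Let `K` be the function field of a smooth hypersurface `V` of
degree `d` in `P^(n+1)`, with equation `F` and generic point `t`, `t 0 = 1`, where `n ≥ 1`,
`d ≥ 7 N + n + 6`, `d > (n + 1) N` and `d > 3 (N + n - 1)`. Let `V ⇢ X` be a dominant rational map of
degree `r`, `2 r < (N + 1) (d - n - N)`, to a smooth connected projective variety `X` with function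
field `L`.

If `X` is not of general type, in particular if `X` is special, then `X` is unirational and the
topological fundamental group of `X` has a commutative subgroup of finite index. -/
theorem result {n d N : ℕ} (hn : 1 ≤ n) (hd : 7 * N + n + 6 ≤ d) (hd' : (n + 1) * N < d)
    (hd'' : 3 * (N + n - 1) < d) {F : MvPolynomial (Fin (n + 2)) ℂ} (homogeneous : F.IsHomogeneous d)
    (smooth : ∀ z : Fin (n + 2) → ℂ, z ≠ 0 → ∃ l, eval z (pderiv l F) ≠ 0)
    {K : Type} [Field K] [Algebra ℂ K] (hK : Algebra.trdeg ℂ K = n) {t : Fin (n + 2) → K}
    (ht0 : t 0 = 1) (ht : aeval t F = 0) (hgen : IntermediateField.adjoin ℂ (Set.range t) = ⊤)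
    (L : Type) [Field L] [Algebra ℂ L] [Algebra L K] [IsScalarTower ℂ L K] [FiniteDimensional L K]
    (hr : 2 * Module.finrank L K < (N + 1) * (d - n - N))
    {M : ℕ} {X : Set (CP M)} (hX : IsSmoothProjective X) {x : Fin (M + 1) → L}
    (hx : IsFunctionField X L x) :
    (¬ GeneralType ℂ L n → IsUnirational ℂ L n ∧ ∀ P : X, VirtuallyAbelian (FundamentalGroup X P)) ∧
    (Special ℂ L n (fun _ => False) →
      IsUnirational ℂ L n ∧ ∀ P : X, VirtuallyAbelian (FundamentalGroup X P)) := by
  have key : ¬ GeneralType ℂ L n → IsUnirational ℂ L n ∧
      ∀ P : X, VirtuallyAbelian (FundamentalGroup X P) := by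
    intro hg
    have hu : IsUnirational ℂ L n :=
      (Pool.Agent.Results.MP_f72953_ag.ImagesOfHypersurfaces.result hn hd hd' hd'' homogeneous smooth
        hK ht0 ht hgen L hr).1 hg
    refine ⟨hu, fun P => ?_⟩
    obtain ⟨φ⟩ := hu
    obtain ⟨ι, p, hp, hXp⟩ := hX.algebraic
    exact Pool.Agent.N762.UA.va_of_field hp hXp hX.smooth hX.connected x hx.ne_zero hx.forms φ P
  exact ⟨key, fun hs => key fun hg => Pool.Agent.R882.LT.not_special_of_gt hn hg hs⟩

end Pool.Agent.Results.MP_93ec49_ag.ImagesOfHypersurfaces
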